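import Pool.Agent.Helper1.RK.StE

/-! # Project RK: coordinates of the universal curve with a point -/

set_option autoImplicit false

namespace Pool.Agent.Helper33.RK

open Pool.Agent.Helper1.RK MvPolynomial

section

variable {F : Type} [Field F] {I : Type}

/-- the values of a substitution by fractions at a point -/
theorem eval_frac (v : I → RF F I) (N D : I → MvPolynomial I F)
    (hv : ∀ i, algebraMap (MvPolynomial I F) (RF F I) (D i) * v i =
      algebraMap (MvPolynomial I F) (RF F I) (N i))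
    (p p' : I → F) (hD : ∀ i, eval p' (D i) ≠ 0)
    (hN : ∀ i, eval p' (N i) = eval p' (D i) * p i)
    (φ : MvPolynomial I F →+* RF F I)
    (hC : ∀ c, φ (C c) = algebraMap (MvPolynomial I F) (RF F I) (C c))
    (hX : ∀ i, φ (X i) = v i) (P : MvPolynomial I F) :
    ∃ A B : MvPolynomial I F, eval p' B ≠ 0 ∧
      algebraMap (MvPolynomial I F) (RF F I) B * φ P =
        algebraMap (MvPolynomial I F) (RF F I) A ∧
      eval p' A = eval p' B * eval p P := by
  induction P using MvPolynomial.induction_on with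
  | C c =>
    refine ⟨C c, 1, ?_, ?_, ?_⟩
    · simp
    · rw [map_one, one_mul, hC]
    · simp
  | add P Q hP hQ =>
    obtain ⟨A, B, h1, h2, h3⟩ := hP
    obtain ⟨A', B', h1', h2', h3'⟩ := hQ
    refine ⟨A * B' + A' * B, B * B', ?_, ?_, ?_⟩
    · rw [map_mul]; exact mul_ne_zero h1 h1'
    · rw [map_add, map_mul, map_add, map_mul, map_mul, ← h2, ← h2']; ring
    · rw [map_add, map_mul, map_mul, map_mul, map_add, h3, h3']; ring
  | mul_X P i hP =>
    obtain ⟨A, B, h1, h2, h3⟩ := hP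
    refine ⟨A * N i, B * D i, ?_, ?_, ?_⟩
    · rw [map_mul]; exact mul_ne_zero h1 (hD i)
    · rw [map_mul, map_mul, map_mul, hX, ← h2, ← hv i]; ring
    · rw [map_mul, map_mul, map_mul, eval_X, h3, hN i]; ring

/-- injectivity criterion for a substitution by fractions -/
theorem inj_frac [CharZero F] (v : I → RF F I) (N D : I → MvPolynomial I F)
    (hv : ∀ i, algebraMap (MvPolynomial I F) (RF F I) (D i) * v i =
      algebraMap (MvPolynomial I F) (RF F I) (N i)) (Q : MvPolynomial I F) (hQ : Q ≠ 0)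
    (hp : ∀ p : I → F, eval p Q ≠ 0 → ∃ p' : I → F, (∀ i, eval p' (D i) ≠ 0) ∧
      ∀ i, eval p' (N i) = eval p' (D i) * p i)
    (φ : MvPolynomial I F →+* RF F I)
    (hC : ∀ c, φ (C c) = algebraMap (MvPolynomial I F) (RF F I) (C c))
    (hX : ∀ i, φ (X i) = v i) : Function.Injective φ := by
  rw [injective_iff_map_eq_zero]
  intro P hP
  by_contra hne
  have h0 : P * Q ≠ 0 := mul_ne_zero hne hQ
  have h1 : ∃ p : I → F, eval p (P * Q) ≠ 0 := by
    by_contra hcon
    push Not at hcon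
    exact h0 (MvPolynomial.funext fun x => by rw [hcon x, map_zero])
  obtain ⟨p, hp1⟩ := h1
  rw [map_mul] at hp1
  obtain ⟨p', hD, hN⟩ := hp p (right_ne_zero_of_mul hp1)
  obtain ⟨A, B, e1, e2, e3⟩ := eval_frac v N D hv p p' hD hN φ hC hX P
  rw [hP, mul_zero] at e2
  have hA : A = 0 := (IsFractionRing.injective (MvPolynomial I F) (RF F I)) (by
    rw [← e2, map_zero])
  rw [hA, map_zero] at e3
  exact mul_ne_zero e1 (left_ne_zero_of_mul hp1) e3.symm

end

section

variable (F : Type) [Field F] (r : ℕ) (T : Type)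

/-- index type -/
abbrev Ix : Type := (Fin r × Fin 3) ⊕ T

/-- the polynomial `f i` -/
noncomputable def fp (i : Fin r) : MvPolynomial (Ix r T) F :=
  X (Sum.inl (i, 1)) ^ 3 + X (Sum.inl (i, 0)) * X (Sum.inl (i, 1)) + X (Sum.inl (i, 0))

/-- numerators -/
noncomputable def Nn : Ix r T → MvPolynomial (Ix r T) F
  | Sum.inl (i, 0) => X (Sum.inl (i, 0)) * X (Sum.inl (i, 2)) ^ 4
  | Sum.inl (i, 1) => X (Sum.inl (i, 1)) * X (Sum.inl (i, 2)) ^ 2
  | Sum.inl (i, 2) => X (Sum.inl (i, 2)) ^ 3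
  | Sum.inr t => X (Sum.inr t)

/-- denominators -/
noncomputable def Dn : Ix r T → MvPolynomial (Ix r T) F
  | Sum.inl (i, 0) => fp F r T i ^ 2
  | Sum.inl (i, 1) => fp F r T i
  | Sum.inl (i, 2) => fp F r T i
  | Sum.inr _ => 1

/-- the factor `μ i` -/
noncomputable def mu (i : Fin r) : RF F (Ix r T) :=
  rv F (Sum.inl (i, 2)) ^ 2 / algebraMap (MvPolynomial (Ix r T) F) (RF F (Ix r T)) (fp F r T i)

/-- the images of the variables -/
noncomputable def vv : Ix r T → RF F (Ix r T)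
  | Sum.inl (i, 0) => rv F (Sum.inl (i, 0)) * mu F r T i ^ 2
  | Sum.inl (i, 1) => rv F (Sum.inl (i, 1)) * mu F r T i
  | Sum.inl (i, 2) => rv F (Sum.inl (i, 2)) * mu F r T i
  | Sum.inr t => rv F (Sum.inr t)

/-- the polynomial `b i` -/
noncomputable def bp (i : Fin r) : MvPolynomial (Ix r T) F :=
  X (Sum.inl (i, 2)) ^ 2 - X (Sum.inl (i, 1)) ^ 3 - X (Sum.inl (i, 0)) * X (Sum.inl (i, 1))

/-- the exceptional polynomial -/
noncomputable def Qp : MvPolynomial (Ix r T) F :=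
  ∏ i : Fin r, (X (Sum.inl (i, 0)) * bp F r T i * X (Sum.inl (i, 2)))

/-- the point of the target -/
noncomputable def pp (p : Ix r T → F) : Ix r T → F
  | Sum.inl (i, 0) => p (Sum.inl (i, 0)) ^ 3 / eval p (bp F r T i) ^ 2
  | Sum.inl (i, 1) => p (Sum.inl (i, 1)) * p (Sum.inl (i, 0)) / eval p (bp F r T i)
  | Sum.inl (i, 2) => p (Sum.inl (i, 2)) * p (Sum.inl (i, 0)) / eval p (bp F r T i)
  | Sum.inr t => p (Sum.inr t)

variable {F r T}

theorem fp_ne (i : Fin r) : fp F r T i ≠ 0 := by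
  classical
  intro h
  have h1 := congrArg (eval (fun j : Ix r T => if j = Sum.inl (i, 1) then (1 : F) else 0)) h
  simp [fp] at h1

theorem Qp_ne : Qp F r T ≠ 0 := by
  intro h
  have h1 := congrArg (eval (fun j : Ix r T => match j with
    | Sum.inl (_, 1) => (0 : F)
    | _ => 1)) h
  simp [Qp, bp, map_prod] at h1

theorem fq_ne (i : Fin r) :
    algebraMap (MvPolynomial (Ix r T) F) (RF F (Ix r T)) (fp F r T i) ≠ 0 := by
  intro h
  exact fp_ne i ((IsFractionRing.injective (MvPolynomial (Ix r T) F) (RF F (Ix r T)))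
    (by rw [h, map_zero]))

theorem rv_ne (i : Ix r T) : rv F i ≠ 0 := by
  intro h
  exact X_ne_zero i ((IsFractionRing.injective (MvPolynomial (Ix r T) F) (RF F (Ix r T)))
    (by rw [map_zero]; exact h))

theorem mu_ne (i : Fin r) : mu F r T i ≠ 0 :=
  div_ne_zero (pow_ne_zero 2 (rv_ne _)) (fq_ne i)

theorem mu_mul (i : Fin r) :
    mu F r T i * algebraMap (MvPolynomial (Ix r T) F) (RF F (Ix r T)) (fp F r T i) =
      rv F (Sum.inl (i, 2)) ^ 2 := div_mul_cancel₀ _ (fq_ne i)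

theorem fq_eq (i : Fin r) :
    algebraMap (MvPolynomial (Ix r T) F) (RF F (Ix r T)) (fp F r T i) =
      rv F (Sum.inl (i, 1)) ^ 3 + rv F (Sum.inl (i, 0)) * rv F (Sum.inl (i, 1)) +
        rv F (Sum.inl (i, 0)) := by
  simp only [fp, map_add, map_mul, map_pow]
  rfl

theorem hvv (j : Ix r T) :
    algebraMap (MvPolynomial (Ix r T) F) (RF F (Ix r T)) (Dn F r T j) * vv F r T j =
      algebraMap (MvPolynomial (Ix r T) F) (RF F (Ix r T)) (Nn F r T j) := by
  match j with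
  | Sum.inl (i, 0) =>
    have h := mu_mul (F := F) (T := T) i
    simp only [Dn, vv, Nn, map_mul, map_pow]
    change _ = rv F (Sum.inl (i, 0)) * rv F (Sum.inl (i, 2)) ^ 4
    have e : rv F (I := Ix r T) (Sum.inl (i, 2)) ^ 4 = (rv F (Sum.inl (i, 2)) ^ 2) ^ 2 := by ring
    rw [e, ← h]; ring
  | Sum.inl (i, 1) =>
    have h := mu_mul (F := F) (T := T) i
    simp only [Dn, vv, Nn, map_mul, map_pow]
    change _ = rv F (Sum.inl (i, 1)) * rv F (Sum.inl (i, 2)) ^ 2
    rw [← h]; ring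
  | Sum.inl (i, 2) =>
    have h := mu_mul (F := F) (T := T) i
    simp only [Dn, vv, Nn, map_pow]
    change _ = rv F (Sum.inl (i, 2)) ^ 3
    have e : rv F (I := Ix r T) (Sum.inl (i, 2)) ^ 3 =
      rv F (Sum.inl (i, 2)) * rv F (Sum.inl (i, 2)) ^ 2 := by ring
    rw [e, ← h]; ring
  | Sum.inr t =>
    simp only [Dn, vv, Nn, map_one, one_mul]
    rfl

theorem hpp (p : Ix r T → F) (hp : eval p (Qp F r T) ≠ 0) :
    (∀ j, eval (pp F r T p) (Dn F r T j) ≠ 0) ∧
      ∀ j, eval (pp F r T p) (Nn F r T j) = eval (pp F r T p) (Dn F r T j) * p j := by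
  have hi : ∀ i : Fin r, p (Sum.inl (i, 0)) ≠ 0 ∧ eval p (bp F r T i) ≠ 0 ∧
      p (Sum.inl (i, 2)) ≠ 0 := by
    intro i
    rw [Qp, map_prod, Finset.prod_ne_zero_iff] at hp
    have h := hp i (Finset.mem_univ i)
    rw [map_mul, map_mul, eval_X, eval_X] at h
    exact ⟨left_ne_zero_of_mul (left_ne_zero_of_mul h),
      right_ne_zero_of_mul (left_ne_zero_of_mul h), right_ne_zero_of_mul h⟩
  have hb : ∀ i : Fin r, eval p (bp F r T i) = p (Sum.inl (i, 2)) ^ 2 -
      p (Sum.inl (i, 1)) ^ 3 - p (Sum.inl (i, 0)) * p (Sum.inl (i, 1)) := by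
    intro i
    simp [bp]
  have hf : ∀ i : Fin r, eval (pp F r T p) (fp F r T i) =
      p (Sum.inl (i, 0)) ^ 3 * p (Sum.inl (i, 2)) ^ 2 / eval p (bp F r T i) ^ 3 := by
    intro i
    obtain ⟨h0, h1, h2⟩ := hi i
    simp only [fp, map_add, map_mul, map_pow, eval_X, pp]
    have h := hb i
    field_simp
    linear_combination h
  have hfn : ∀ i : Fin r, eval (pp F r T p) (fp F r T i) ≠ 0 := by
    intro i
    obtain ⟨h0, h1, h2⟩ := hi i
    rw [hf i]
    positivity
  refine ⟨?_, ?_⟩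
  · intro j
    match j with
    | Sum.inl (i, 0) => simp only [Dn, map_pow]; exact pow_ne_zero 2 (hfn i)
    | Sum.inl (i, 1) => exact hfn i
    | Sum.inl (i, 2) => exact hfn i
    | Sum.inr t => simp [Dn]
  · intro j
    match j with
    | Sum.inl (i, 0) =>
      obtain ⟨h0, h1, h2⟩ := hi i
      simp only [Nn, Dn, map_mul, map_pow, eval_X, hf i, pp]
      field_simp
    | Sum.inl (i, 1) =>
      obtain ⟨h0, h1, h2⟩ := hi i
      simp only [Nn, Dn, map_mul, map_pow, eval_X, hf i, pp]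
      field_simp
    | Sum.inl (i, 2) =>
      obtain ⟨h0, h1, h2⟩ := hi i
      simp only [Nn, Dn, map_pow, eval_X, hf i, pp]
      field_simp
    | Sum.inr t => simp [Nn, Dn, pp]

end

theorem fld1 {K : Type} [Field K] {a m : K} (ha : a ≠ 0) (hm : m ≠ 0) :
    (a * m ^ 2) ^ 3 / (a * m ^ 3) ^ 2 = a := by
  rw [div_eq_iff (pow_ne_zero 2 (mul_ne_zero ha (pow_ne_zero 3 hm)))]; ring

theorem fld2 {K : Type} [Field K] {a m : K} (x : K) (ha : a ≠ 0) (hm : m ≠ 0) :
    x * m * (a * m ^ 2) / (a * m ^ 3) = x := by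
  rw [div_eq_iff (mul_ne_zero ha (pow_ne_zero 3 hm))]; ring

theorem pISO : StISO := by
  intro F _ _ r T
  set K := RF F (Ix r T) with hK
  set φ : MvPolynomial (Ix r T) F →+* K :=
    eval₂Hom ((algebraMap (MvPolynomial (Ix r T) F) K).comp C) (vv F r T) with hφ
  have hC : ∀ c, φ (C c) = algebraMap (MvPolynomial (Ix r T) F) K (C c) := by
    intro c
    rw [hφ]; exact eval₂Hom_C _ _ _
  have hX : ∀ j, φ (X j) = vv F r T j := by
    intro j
    rw [hφ]; exact eval₂Hom_X' _ _ _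
  have hinj : Function.Injective φ :=
    inj_frac (vv F r T) (Nn F r T) (Dn F r T) hvv (Qp F r T) Qp_ne
      (fun p hp => ⟨pp F r T p, hpp p hp⟩) φ hC hX
  set θ₀ : K →+* K := IsFractionRing.lift hinj with hθ₀
  have hθ : ∀ P, θ₀ (algebraMap (MvPolynomial (Ix r T) F) K P) = φ P :=
    fun P => IsFractionRing.lift_algebraMap hinj P
  have hθv : ∀ j, θ₀ (rv F j) = vv F r T j := fun j => (hθ (X j)).trans (hX j)
  have hθc : ∀ c, θ₀ (rc _ c) = rc _ c := fun c => (hθ (C c)).trans (hC c)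
  have hθb : ∀ i : Fin r, θ₀ (rv F (Sum.inl (i, 2)) ^ 2 - rv F (Sum.inl (i, 1)) ^ 3 -
      rv F (Sum.inl (i, 0)) * rv F (Sum.inl (i, 1))) =
      rv F (Sum.inl (i, 0)) * mu F r T i ^ 3 := by
    intro i
    have h := mu_mul (F := F) (T := T) i
    rw [fq_eq] at h
    simp only [map_sub, map_mul, map_pow, hθv, vv]
    linear_combination (-(mu F r T i ^ 2)) * h
  have hvar : ∀ j, ∃ g, θ₀ g = rv F j := by
    intro j
    match j with
    | Sum.inl (i, 0) =>
      refine ⟨rv F (Sum.inl (i, 0)) ^ 3 / (rv F (Sum.inl (i, 2)) ^ 2 -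
        rv F (Sum.inl (i, 1)) ^ 3 - rv F (Sum.inl (i, 0)) * rv F (Sum.inl (i, 1))) ^ 2, ?_⟩
      have h1 := mu_ne (F := F) (T := T) i
      have h2 := rv_ne (F := F) (T := T) (Sum.inl (i, 0))
      rw [map_div₀, map_pow, map_pow, hθb, hθv]
      exact fld1 h2 h1
    | Sum.inl (i, 1) =>
      refine ⟨rv F (Sum.inl (i, 1)) * rv F (Sum.inl (i, 0)) / (rv F (Sum.inl (i, 2)) ^ 2 -
        rv F (Sum.inl (i, 1)) ^ 3 - rv F (Sum.inl (i, 0)) * rv F (Sum.inl (i, 1))), ?_⟩
      have h1 := mu_ne (F := F) (T := T) i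
      have h2 := rv_ne (F := F) (T := T) (Sum.inl (i, 0))
      rw [map_div₀, map_mul, hθb, hθv, hθv]
      exact fld2 _ h2 h1
    | Sum.inl (i, 2) =>
      refine ⟨rv F (Sum.inl (i, 2)) * rv F (Sum.inl (i, 0)) / (rv F (Sum.inl (i, 2)) ^ 2 -
        rv F (Sum.inl (i, 1)) ^ 3 - rv F (Sum.inl (i, 0)) * rv F (Sum.inl (i, 1))), ?_⟩
      have h1 := mu_ne (F := F) (T := T) i
      have h2 := rv_ne (F := F) (T := T) (Sum.inl (i, 0))
      rw [map_div₀, map_mul, hθb, hθv, hθv]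
      exact fld2 _ h2 h1
    | Sum.inr t => exact ⟨rv F (Sum.inr t), hθv _⟩
  have hpol : ∀ P : MvPolynomial (Ix r T) F, ∃ g, θ₀ g = algebraMap _ K P := by
    intro P
    induction P using MvPolynomial.induction_on with
    | C c => exact ⟨rc _ c, hθc c⟩
    | add P Q hP hQ =>
      obtain ⟨g, hg⟩ := hP
      obtain ⟨g', hg'⟩ := hQ
      exact ⟨g + g', by rw [map_add, map_add, hg, hg']⟩
    | mul_X P j hP =>
      obtain ⟨g, hg⟩ := hP
      obtain ⟨g', hg'⟩ := hvar j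
      exact ⟨g * g', by rw [map_mul, map_mul, hg, hg']; rfl⟩
  have hsurj : Function.Surjective θ₀ := by
    intro g
    obtain ⟨A, B, -, rfl⟩ := IsFractionRing.div_surjective (A := MvPolynomial (Ix r T) F) g
    obtain ⟨a, ha⟩ := hpol A
    obtain ⟨b, hb⟩ := hpol B
    exact ⟨a / b, by rw [map_div₀, ha, hb]⟩
  refine ⟨RingEquiv.ofBijective θ₀ ⟨θ₀.injective, hsurj⟩, ?_, ?_, ?_⟩
  · intro c; exact hθc c
  · intro t; exact hθv _
  · intro i
    refine ⟨mu F r T i, mu_ne i, ?_, ?_, ?_, ?_⟩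
    · rw [← fq_eq]; exact mu_mul i
    · exact hθv _
    · exact hθv _
    · exact hθv _

end Pool.Agent.Helper33.RK
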