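import Pool.Agent.Helper43.RK.StI

set_option autoImplicit false

namespace Pool.Agent.Helper33.RK

open Pool.Agent.Helper43.RK

theorem hITH : StITH := by
  intro hIRU hISC Λ _ G _ k P v l r e hT
  obtain ⟨hZp, hZa, -, -, -, -⟩ := hIRU Λ G k P
  have hS := hISC hIRU Λ G k P v l r e hT 1
  rw [mul_one, P.up_one] at hS
  unfold PP.Tri at hT hS ⊢
  -- (E1)
  have h1 : P.p l * P.a = P.a * P.p v * P.a * P.Z ^ (-e) * P.p (-r) := by
    rw [hT, P.pneg, zpow_neg]; group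
  have h2 : P.p (2 * l) * P.a = P.a * P.p (P.up k * v) * P.a * P.Z ^ (-(e - k)) *
      P.p (-(P.up k * r)) := by
    rw [hS, P.pneg, zpow_neg]; group
  have h3 : P.p (2 * l) = P.p l * P.p l := by rw [← P.add, two_mul]
  -- p l * p l * a = p l * (p l * a)
  have h4 : P.p (2 * l) * P.a =
      P.a * P.p v * P.a * P.Z ^ (-e) * P.p (-r) * (P.p v * P.a * P.Z ^ (-e) * P.p (-r)) := by
    rw [h3, mul_assoc, h1]
    have : P.p l * (P.a * P.p v * P.a * P.Z ^ (-e) * P.p (-r)) =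
        (P.p l * P.a) * (P.p v * P.a * P.Z ^ (-e) * P.p (-r)) := by group
    rw [this, h1]
  -- combine
  have h5 : P.Z ^ (-e) * P.p (-r) * P.p v =
      P.p ((v - r) * P.up (-((k - 1) * e))) * P.Z ^ (-e) := by
    rw [mul_assoc, ← P.add, hZp]
    congr 2
    rw [show (k - 1) * -e = -((k - 1) * e) by ring]; ring
  have h6 : P.Z ^ (-e) * P.a = P.a * P.Z ^ (k * -e) := hZa (-e)
  have h7 : P.a * P.p v * P.a * P.Z ^ (-e) * P.p (-r) * (P.p v * P.a * P.Z ^ (-e) * P.p (-r)) =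
      P.a * P.p v * (P.a * P.p ((v - r) * P.up (-((k - 1) * e))) * P.a) *
        P.Z ^ (k * -e) * P.Z ^ (-e) * P.p (-r) := by
    calc P.a * P.p v * P.a * P.Z ^ (-e) * P.p (-r) * (P.p v * P.a * P.Z ^ (-e) * P.p (-r))
        = P.a * P.p v * P.a * (P.Z ^ (-e) * P.p (-r) * P.p v) * P.a * P.Z ^ (-e) * P.p (-r) := by
          simp only [mul_assoc]
      _ = P.a * P.p v * P.a * P.p ((v - r) * P.up (-((k - 1) * e))) * (P.Z ^ (-e) * P.a) *
            P.Z ^ (-e) * P.p (-r) := by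
          rw [h5]; simp only [mul_assoc]
      _ = _ := by rw [h6]; simp only [mul_assoc]
  have h8 : P.a * P.p v * (P.a * P.p ((v - r) * P.up (-((k - 1) * e))) * P.a) *
        P.Z ^ (k * -e) * P.Z ^ (-e) * P.p (-r) =
      P.a * P.p (P.up k * v) * P.a * P.Z ^ (-(e - k)) * P.p (-(P.up k * r)) := by
    rw [← h7, ← h4, h2]
  have h9 : P.a * P.p ((v - r) * P.up (-((k - 1) * e))) * P.a =
      P.p (-v) * P.p (P.up k * v) * P.a * P.Z ^ (-(e - k)) * (P.p (-(P.up k * r)) * P.p r) *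
        (P.Z ^ e * P.Z ^ (k * e)) := by
    have hx : P.a * P.p ((v - r) * P.up (-((k - 1) * e))) * P.a =
        (P.p v)⁻¹ * P.a⁻¹ * (P.a * P.p v * (P.a * P.p ((v - r) * P.up (-((k - 1) * e))) * P.a) *
        P.Z ^ (k * -e) * P.Z ^ (-e) * P.p (-r)) * (P.p (-r))⁻¹ * (P.Z ^ (-e))⁻¹ *
        (P.Z ^ (k * -e))⁻¹ := by
      group
    rw [hx, h8, ← P.pneg v, ← P.pneg (-r), neg_neg, ← zpow_neg, ← zpow_neg, neg_neg,
      show -(k * -e) = k * e by ring]
    group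
  rw [h9, ← P.add, ← P.add, show -v + P.up k * v = P.N * v by unfold PP.N; ring,
    show -(P.up k * r) + r = -(P.N * r) by unfold PP.N; ring]
  rw [mul_assoc (P.p (P.N * v) * P.a), hZp]
  rw [show (k - 1) * -(e - k) = (k - 1) * (k - e) by ring,
    show P.up ((k - 1) * (k - e)) * -(P.N * r) = -(P.N * r * P.up ((k - 1) * (k - e))) by ring]
  have hfin : P.Z ^ (-(e - k)) * (P.Z ^ e * P.Z ^ (k * e)) = P.Z ^ (k * (1 + e)) := by
    rw [← zpow_add, ← zpow_add]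
    congr 1; ring
  simp only [mul_assoc]
  rw [hfin]

end Pool.Agent.Helper33.RK
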